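import Mathlib
import Pool.Agent.H80.SymPosDefs
import Pool.Agent.H80.SymPos

open Pool.Agent.H80.SymPos MvPolynomial

theorem Pool.Agent.Results.MP_2f3180_ag.PolyaFails.result :
    ∃ g : MvPolynomial ℕ ℝ, (∀ j ∈ g.vars, Even j ∧ 2 ≤ j) ∧ IsWeightedHomogeneous id g 12 ∧
      PosOnS g ∧ ∀ k : ℕ, ¬ ∃ c : (12 + 2 * k).Partition → ℝ, (∀ μ, 0 ≤ c μ) ∧
        ∀ n, trunc n (X 2 ^ k * g) =
          ∑ μ ∈ Finset.univ.filter (fun μ : (12 + 2 * k).Partition => ∀ a ∈ μ.parts, Even a),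
            c μ • msymm (Fin n) ℝ μ :=
  ⟨g, g_vars, g_hom, g_pos, fun k ⟨c, hc, h⟩ => q1 k _ c hc h⟩
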